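import Pool.Agent.H482R3.EA.Stm

set_option autoImplicit false

/-! Project EA: no short relations between the elements `x_i` of the free group. -/

namespace Pool.Agent.H482R3.EA.X3

open Pool.Agent.H482R3.EA

/-- exponent sum of the generators with index `r` -/
def eps (k : ℕ) (r : ℤ) : FreeGroup (Fin k) →* Multiplicative ℤ :=
  FreeGroup.lift fun s : Fin k => if ((s : ℕ) : ℤ) = r then Multiplicative.ofAdd (1 : ℤ) else 1

theorem eps_xx (k : ℕ) (hk : 0 < k) (r i : ℤ) :
    eps k r (xx k i) = if i % (k : ℤ) = r then Multiplicative.ofAdd (1 : ℤ) else 1 := by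
  unfold xx
  rw [dif_pos hk, map_mul, map_mul, map_zpow, map_zpow, mul_comm (eps k r (PP k) ^ _) _, mul_assoc,
    ← zpow_add, neg_add_cancel, zpow_zero, mul_one]
  unfold eps
  rw [FreeGroup.lift_apply_of]
  have h1 := Int.emod_nonneg i (b := (k : ℤ)) (by omega)
  have h2 : (((i % (k : ℤ)).toNat : ℕ) : ℤ) = i % (k : ℤ) := Int.toNat_of_nonneg h1
  simp only [h2]

theorem eps_pow (k : ℕ) (hk : 0 < k) (r i a : ℤ) :
    Multiplicative.toAdd (eps k r (xx k i ^ a)) = if i % (k : ℤ) = r then a else 0 := by
  rw [map_zpow, eps_xx k hk]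
  split_ifs
  · rw [toAdd_zpow, toAdd_ofAdd, smul_eq_mul, mul_one]
  · rw [one_zpow, toAdd_one]

theorem one (k : ℕ) (hk : 0 < k) (i a : ℤ) (h : xx k i ^ a = 1) : a = 0 := by
  have h1 := eps_pow k hk (i % k) i a
  rw [h, map_one, toAdd_one, if_pos rfl] at h1
  exact h1.symm

theorem two (hT : S_XT) (k : ℕ) (hk : 2 ≤ k) (i j a b : ℤ) (hij : i ≠ j)
    (h : xx k i ^ a * xx k j ^ b = 1) : a = 0 ∧ b = 0 := by
  have hk0 : 0 < k := by omega
  have hkz : (0 : ℤ) < k := by exact_mod_cast hk0
  have he : ∀ r : ℤ, (if i % (k : ℤ) = r then a else 0) + (if j % (k : ℤ) = r then b else 0) = 0 := by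
    intro r
    have h1 := congrArg (fun z => Multiplicative.toAdd (eps k r z)) h
    rw [map_mul, toAdd_mul, eps_pow k hk0, eps_pow k hk0, map_one, toAdd_one] at h1
    exact h1
  by_cases hc : j % (k : ℤ) = i % (k : ℤ)
  · obtain ⟨θ, hθ⟩ := hT k (i % k) hk (Int.emod_nonneg i hkz.ne') (Int.emod_lt_of_pos i hkz)
    have ei : i % (k : ℤ) + k * (i / k) = i := Int.emod_add_mul_ediv i k
    have ej : i % (k : ℤ) + k * (j / k) = j := by
      rw [← hc]
      exact Int.emod_add_mul_ediv j k
    have hne : i / (k : ℤ) ≠ j / k := by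
      intro hh
      apply hij
      rw [← ei, ← ej, hh]
    have fi : ∀ (c : ℤ) (p : ℤ × ℤ), θ (xx k i ^ c) p =
        (p.1, p.2 + if p.1 = i / k then c else 0) := by
      intro c p
      have := hθ (i / k) c p
      rwa [ei] at this
    have fj : ∀ (c : ℤ) (p : ℤ × ℤ), θ (xx k j ^ c) p =
        (p.1, p.2 + if p.1 = j / k then c else 0) := by
      intro c p
      have := hθ (j / k) c p
      rwa [ej] at this
    have hp : ∀ p : ℤ × ℤ, p = θ (xx k i ^ a) (θ (xx k j ^ b) p) := by
      intro p
      have := congrArg (fun z => θ z p) h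
      rw [map_mul, map_one, Equiv.Perm.mul_apply, Equiv.Perm.one_apply] at this
      exact this.symm
    constructor
    · have h1 := congrArg Prod.snd (hp (i / k, 0))
      rw [fj, fi] at h1
      simp only [hne, if_true, if_false, add_zero, zero_add] at h1
      exact h1.symm
    · have h1 := congrArg Prod.snd (hp (j / k, 0))
      rw [fj, fi] at h1
      simp only [hne.symm, if_true, if_false, add_zero, zero_add] at h1
      exact h1.symm
  · have h1 := he (i % k)
    have h2 := he (j % k)
    rw [if_pos rfl, if_neg hc] at h1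
    rw [if_pos rfl, if_neg (Ne.symm hc)] at h2
    exact ⟨by omega, by omega⟩

theorem t_X3 (_ : S_XX) (hT : S_XT) : S_X3 := by
  intro k hk
  have hk0 : 0 < k := by omega
  have hkz : (0 : ℤ) < k := by exact_mod_cast hk0
  refine ⟨one k hk0, two hT k hk, ?_⟩
  intro i j l a b d hij hjl hil h
  have he : ∀ r : ℤ, (if i % (k : ℤ) = r then a else 0) + (if j % (k : ℤ) = r then b else 0) +
      (if l % (k : ℤ) = r then d else 0) = 0 := by
    intro r
    have h1 := congrArg (fun z => Multiplicative.toAdd (eps k r z)) h
    rw [(eps k r).map_mul, toAdd_mul, (eps k r).map_mul, toAdd_mul, eps_pow k hk0,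
      eps_pow k hk0, eps_pow k hk0, map_one, toAdd_one] at h1
    exact h1
  by_cases h1 : j % (k : ℤ) = i % (k : ℤ)
  · by_cases h2 : l % (k : ℤ) = i % (k : ℤ)
    · obtain ⟨θ, hθ⟩ := hT k (i % k) hk (Int.emod_nonneg i hkz.ne') (Int.emod_lt_of_pos i hkz)
      have ei : i % (k : ℤ) + k * (i / k) = i := Int.emod_add_mul_ediv i k
      have ej : i % (k : ℤ) + k * (j / k) = j := by
        rw [← h1]
        exact Int.emod_add_mul_ediv j k
      have el : i % (k : ℤ) + k * (l / k) = l := by
        rw [← h2]
        exact Int.emod_add_mul_ediv l k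
      have hne1 : i / (k : ℤ) ≠ j / k := by
        intro hh
        apply hij
        rw [← ei, ← ej, hh]
      have hne2 : i / (k : ℤ) ≠ l / k := by
        intro hh
        apply hil
        rw [← ei, ← el, hh]
      have hne3 : j / (k : ℤ) ≠ l / k := by
        intro hh
        apply hjl
        rw [← ej, ← el, hh]
      have fi : ∀ (c : ℤ) (p : ℤ × ℤ), θ (xx k i ^ c) p =
          (p.1, p.2 + if p.1 = i / k then c else 0) := by
        intro c p
        have := hθ (i / k) c p
        rwa [ei] at this
      have fj : ∀ (c : ℤ) (p : ℤ × ℤ), θ (xx k j ^ c) p =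
          (p.1, p.2 + if p.1 = j / k then c else 0) := by
        intro c p
        have := hθ (j / k) c p
        rwa [ej] at this
      have fl : ∀ (c : ℤ) (p : ℤ × ℤ), θ (xx k l ^ c) p =
          (p.1, p.2 + if p.1 = l / k then c else 0) := by
        intro c p
        have := hθ (l / k) c p
        rwa [el] at this
      have hp : ∀ p : ℤ × ℤ, p = θ (xx k i ^ a) (θ (xx k j ^ b) (θ (xx k l ^ d) p)) := by
        intro p
        have := congrArg (fun z => θ z p) h
        rw [map_mul, map_mul, map_one, Equiv.Perm.mul_apply, Equiv.Perm.mul_apply,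
          Equiv.Perm.one_apply] at this
        exact this.symm
      refine ⟨?_, ?_, ?_⟩
      · have q := congrArg Prod.snd (hp (i / k, 0))
        rw [fl, fj, fi] at q
        simp only [hne1, hne2, if_true, if_false, add_zero, zero_add] at q
        exact q.symm
      · have q := congrArg Prod.snd (hp (j / k, 0))
        rw [fl, fj, fi] at q
        simp only [hne1.symm, hne3, if_true, if_false, add_zero, zero_add] at q
        exact q.symm
      · have q := congrArg Prod.snd (hp (l / k, 0))
        rw [fl, fj, fi] at q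
        simp only [hne2.symm, hne3.symm, if_true, if_false, add_zero, zero_add] at q
        exact q.symm
    · -- the class of l is alone
      have h3 : l % (k : ℤ) ≠ j % k := by rw [h1]; exact h2
      have q := he (l % k)
      rw [if_neg (Ne.symm h2), if_neg (Ne.symm h3), if_pos rfl] at q
      have hd : d = 0 := by omega
      rw [hd, zpow_zero, mul_one] at h
      have q2 := two hT k hk i j a b hij h
      exact ⟨q2.1, q2.2, hd⟩
  · by_cases h2 : l % (k : ℤ) = i % (k : ℤ)
    · -- the class of j is alone
      have h3 : l % (k : ℤ) ≠ j % k := by rw [h2]; exact Ne.symm h1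
      have q := he (j % k)
      rw [if_neg (Ne.symm h1), if_neg h3, if_pos rfl] at q
      have hb : b = 0 := by omega
      rw [hb, zpow_zero, mul_one] at h
      have q2 := two hT k hk i l a d hil h
      exact ⟨q2.1, hb, q2.2⟩
    · -- the class of i is alone
      have q := he (i % k)
      rw [if_neg h1, if_neg h2, if_pos rfl] at q
      have ha : a = 0 := by omega
      rw [ha, zpow_zero, one_mul] at h
      have q2 := two hT k hk j l b d hjl h
      exact ⟨ha, q2.1, q2.2⟩

end Pool.Agent.H482R3.EA.X3
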